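import Pool.Agent.N794.CG.Mom
import Pool.Agent.N794.CG.Dom
import Pool.Agent.R345.HM1

/-!
# A maximal form of the moment theorem for the torsion of class groups, for all families with small characteristic functions

This is `Pool.Agent.N794.CG.torsion_gen` (starting library), whose proof is adapted here, with the supremum over the order of the
torsion, over the fields and over the size of the discriminants inside of the mean value.
-/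

set_option autoImplicit false

namespace Pool.Agent.Helper92.HM
open Polynomial Finset NumberField Filter
open Pool.Agent.R459.Eq (Decays)
open Pool.Agent.R459.Tor
open Pool.Agent.H730R2.AA
open Pool.Agent.H491R4.HM (one_scale_high)
open Pool.Agent.N794.CG (mean_gen Dom)

open Classical in
/-- **the torsion: a majorant with small mean value** -/
theorem torsion_max (b : ℕ) (hb : 2 ≤ b) (A₀ : ℕ) (γ : ℝ) (hγ0 : 0 < γ) (hγ1 : γ < 1) (m : ℕ) (hm : 1 ≤ m) : ∃ W : ℕ, 1 ≤ W ∧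
    ∀ (F₀ : ℕ) (κ : ℤ), 1 ≤ F₀ → κ ≠ 0 → ∀ n : ℕ, 2 ≤ n → ∀ T V : ℕ, ∃ B₂ k₀ : ℕ, ∀ k : ℕ, k₀ ≤ k →
    ∀ F : ℤ[X], Small n ((k : ℤ) ^ T) F → ∀ j : ℤ, j ≠ 0 → |j| ≤ (k : ℤ) ^ T → ∃ Maj : ℤ → ℝ, (∀ v, 0 ≤ Maj v) ∧
    (∀ (Λ : ℝ) (ι : Type) (Ω : Finset ι) (w : ι → ℝ) (v : ι → ℤ), 1 ≤ Λ → (∀ i ∈ Ω, 0 ≤ w i) → ∑ i ∈ Ω, w i ≤ 1 →
      (∀ (P : ℤ → Prop) (τ : ℝ), 0 ≤ τ → (∀ (ι : Type) (Ω : Finset ι) (w : ι → ℝ) (v : ι → ℤ), Decays b F₀ A₀ k γ κ Ω w v →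
        ∀ E : Finset ι, E ⊆ Ω → (∀ i ∈ E, ¬ P (v i)) → ∑ i ∈ E, w i ≤ τ) →
        ∑ i ∈ Ω.filter (fun i => ¬ P (v i)), w i ≤ Λ * τ) →
      ∑ i ∈ Ω, w i * Maj (v i) ≤ Λ * ((k : ℝ) ^ B₂) ^ m) ∧
    ∀ v : ℤ, |v| ≤ (b : ℤ) ^ (V * k) → ∀ (K : Type) [Field K] [NumberField K] (α : K), Module.finrank ℚ K = n →
      IntermediateField.adjoin ℚ {α} = ⊤ → aeval α F = ((j * v : ℤ) : K) → ∀ ℓ : ℕ, 1 ≤ ℓ → ℓ ≤ k ^ T →
      (Nat.card {x : ClassGroup (𝓞 K) // x ^ ℓ = 1} : ℝ) ^ m ≤ Maj v * (√|(discr K : ℝ)| *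
        max (|(discr K : ℝ)| ^ (-(1 / ((n * (n - 1) * ℓ : ℕ) : ℝ)))) ((b : ℝ) ^ (-((k : ℝ) / W)))) ^ m := by
  obtain ⟨W, hW, H⟩ := one_scale_high b hb A₀ γ hγ0 hγ1 m hm
  refine ⟨W, hW, fun F₀ κ hF₀ hκ n hn T V => ?_⟩
  obtain ⟨C, X₀, hC, hX₀, J⟩ := H F₀ κ hF₀ hκ n (by omega)
  obtain ⟨A, hA⟩ : ∃ A, A = 2 * T + 4 := ⟨_, rfl⟩
  obtain ⟨B₁, k₁, hk₁, hcl⟩ := class_bound1 b hb n hn T A W V (by omega) hW
  obtain ⟨k₂, hk₂⟩ := exists_nat_ge (1 + C * (1200 * (b : ℝ) ^ 2) ^ m * ((b : ℝ) + 1))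
  refine ⟨B₁ + (2 + 2 * m), k₁ + X₀ + k₂ + 2, fun k hkk F hF j hj0 hj => ?_⟩
  have hk1 : 1 ≤ k := by omega
  have hkR : (1 : ℝ) ≤ k := by exact_mod_cast hk1
  have hk0 : (0 : ℝ) < k := by linarith
  have hbR : (2 : ℝ) ≤ b := by exact_mod_cast hb
  obtain ⟨β, hβ⟩ : ∃ β : ℝ, β = (b : ℝ) ^ ((k : ℝ) / W) := ⟨_, rfl⟩
  have hβ0 : 0 < β := by rw [hβ]; positivity
  have hβinv : (b : ℝ) ^ (-((k : ℝ) / W)) = 1 / β := by
    rw [Real.rpow_neg (by linarith), hβ, one_div]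
  obtain ⟨R, hR⟩ : ∃ R : Finset ℕ, R = (range (b * k + 1)).filter (fun r => k ^ A ≤ 2 ^ r ∧ (2 ^ r) ^ W ≤ b ^ k) := ⟨_, rfl⟩
  obtain ⟨Z, hZ⟩ : ∃ Z : ℝ, Z = ((k : ℝ) ^ B₁) ^ m := ⟨_, rfl⟩
  have hZ0 : 0 ≤ Z := by rw [hZ]; positivity
  obtain ⟨G, hG⟩ : ∃ G : ℕ → ℝ, G = fun r => Z * (1200 * (2 : ℝ) ^ r) ^ m := ⟨_, rfl⟩
  obtain ⟨τ, hτ⟩ : ∃ τ : ℕ → ℝ, τ = fun r => C * (Real.log ((2 ^ r : ℕ) : ℝ) ^ 2 / ((2 ^ r : ℕ) : ℝ)) ^ m := ⟨_, rfl⟩
  obtain ⟨P, hP⟩ : ∃ P : ℕ → ℤ → Prop, P = fun r v => (Nat.primeCounting (2 ^ r) : ℝ) / (8 * n) ≤ (cntH F j (2 ^ r) v : ℝ) :=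
    ⟨_, rfl⟩
  have hG0 : ∀ r, 0 ≤ G r := fun r => by rw [hG]; positivity
  obtain ⟨Maj, hMaj⟩ : ∃ Maj : ℤ → ℝ, Maj = fun v => Z + ∑ r ∈ R, G r * (if P r v then 0 else 1) := ⟨_, rfl⟩
  have hnn : ∀ v, 0 ≤ ∑ r ∈ R, G r * (if P r v then 0 else 1) := fun v => by
    apply sum_nonneg
    intro r _
    have := hG0 r
    split_ifs <;> simp [this]
  refine ⟨Maj, fun v => by rw [hMaj]; exact add_nonneg hZ0 (hnn v), ?_, ?_⟩
  · intro Λ ι Ω w v' hΛ hw hw1 hpass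
    have hmean := mean_gen Ω w v' hw hw1 Maj Z hZ0 R G (fun r => Λ * τ r) P (fun r _ => hG0 r) (by
        intro r hr
        rw [hR, mem_filter] at hr
        refine hpass (P r) (τ r) (by rw [hτ]; positivity) fun ι Ω w v hdec E hE hbad => ?_
        rw [hτ]
        refine J k (2 ^ r) ?_ hr.2.2 ι Ω w v hdec F j hF.1 hF.2.1 hj0 ?_ E hE (fun i hi => by
          have := hbad i hi
          rw [hP] at this
          exact not_le.1 this)
        · calc X₀ ≤ k := by omega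
            _ = k ^ 1 := (pow_one k).symm
            _ ≤ k ^ A := Nat.pow_le_pow_right hk1 (by omega)
            _ ≤ 2 ^ r := hr.2.1
        · have h1 : j.natAbs ≤ k ^ T := by
            have : (j.natAbs : ℤ) ≤ (k : ℤ) ^ T := by rw [Int.natCast_natAbs]; exact hj
            exact_mod_cast this
          calc j.natAbs * j.natAbs ≤ k ^ T * k ^ T := Nat.mul_le_mul h1 h1
            _ = k ^ (2 * T) := by rw [← pow_add]; congr 1; ring
            _ ≤ k ^ A := Nat.pow_le_pow_right hk1 (by omega)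
            _ ≤ 2 ^ r := hr.2.1) (fun v => by rw [hMaj])
    refine hmean.trans ?_
    have hterm : ∀ r ∈ R, G r * τ r ≤ Z * (C * (1200 * (b : ℝ) ^ 2) ^ m * (k : ℝ) ^ (2 * m)) := by
      intro r hr
      rw [hR, mem_filter, mem_range] at hr
      have h2r : (0 : ℝ) < 2 ^ r := by positivity
      have h1 : Real.log ((2 ^ r : ℕ) : ℝ) ≤ b * k := by
        push_cast
        rw [Real.log_pow]
        have h2 := Real.log_two_lt_d9
        have h3 : (r : ℝ) ≤ b * k := by exact_mod_cast (by omega : r ≤ b * k)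
        have h4 : (0 : ℝ) ≤ r := Nat.cast_nonneg _
        nlinarith
      have h0 : 0 ≤ Real.log ((2 ^ r : ℕ) : ℝ) := Real.log_natCast_nonneg _
      have h5 : Real.log ((2 ^ r : ℕ) : ℝ) ^ 2 ≤ (b : ℝ) ^ 2 * (k : ℝ) ^ 2 := by
        rw [← mul_pow]
        exact pow_le_pow_left₀ h0 h1 2
      rw [hG, hτ]
      simp only
      have e' : Z * (1200 * (2 : ℝ) ^ r) ^ m * (C * (Real.log ((2 ^ r : ℕ) : ℝ) ^ 2 / ((2 ^ r : ℕ) : ℝ)) ^ m) =
          Z * (C * (1200 * Real.log ((2 ^ r : ℕ) : ℝ) ^ 2) ^ m) := by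
        have e2 : (1200 * (2 : ℝ) ^ r) ^ m * (Real.log ((2 ^ r : ℕ) : ℝ) ^ 2 / ((2 ^ r : ℕ) : ℝ)) ^ m =
            (1200 * Real.log ((2 ^ r : ℕ) : ℝ) ^ 2) ^ m := by
          rw [← mul_pow]
          congr 1
          push_cast
          field_simp
        rw [← e2]
        ring
      rw [e']
      apply mul_le_mul_of_nonneg_left _ hZ0
      have e3 : C * (1200 * (b : ℝ) ^ 2) ^ m * (k : ℝ) ^ (2 * m) = C * (1200 * ((b : ℝ) ^ 2 * (k : ℝ) ^ 2)) ^ m := by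
        rw [pow_mul (k : ℝ) 2 m, mul_assoc, ← mul_pow]
        congr 2
        ring
      rw [e3]
      apply mul_le_mul_of_nonneg_left _ hC.le
      apply pow_le_pow_left₀ (by positivity)
      exact mul_le_mul_of_nonneg_left h5 (by norm_num)
    have hRc : (R.card : ℝ) ≤ (b + 1) * k := by
      have h1 : R.card ≤ b * k + 1 := by
        rw [hR]
        refine (card_filter_le _ _).trans ?_
        rw [card_range]
      have h2 : (R.card : ℝ) ≤ b * k + 1 := by exact_mod_cast h1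
      linarith
    have hsum : ∑ r ∈ R, G r * τ r ≤ ((b + 1) * k) * (Z * (C * (1200 * (b : ℝ) ^ 2) ^ m * (k : ℝ) ^ (2 * m))) := by
      refine (sum_le_card_nsmul _ _ _ hterm).trans ?_
      rw [nsmul_eq_mul]
      exact mul_le_mul_of_nonneg_right hRc (by positivity)
    have hk2' : 1 + C * (1200 * (b : ℝ) ^ 2) ^ m * ((b : ℝ) + 1) ≤ k := hk₂.trans (by exact_mod_cast (by omega : k₂ ≤ k))
    have e4 : ((k : ℝ) ^ (B₁ + (2 + 2 * m))) ^ m = Z * ((k : ℝ) ^ (2 + 2 * m)) ^ m := by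
      rw [hZ, ← mul_pow, pow_add]
    rw [e4]
    have hfin : Z + ∑ r ∈ R, G r * τ r ≤ Z * ((k : ℝ) ^ (2 + 2 * m)) ^ m := by
      calc Z + ∑ r ∈ R, G r * τ r ≤ Z + ((b + 1) * k) * (Z * (C * (1200 * (b : ℝ) ^ 2) ^ m * (k : ℝ) ^ (2 * m))) := by linarith
        _ = Z * (1 + (C * (1200 * (b : ℝ) ^ 2) ^ m * ((b : ℝ) + 1)) * (k * (k : ℝ) ^ (2 * m))) := by ring
        _ ≤ Z * (k * (k * (k : ℝ) ^ (2 * m))) := by
            apply mul_le_mul_of_nonneg_left _ hZ0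
            have h1 : (1 : ℝ) ≤ k * (k : ℝ) ^ (2 * m) := by
              have h3 : (1 : ℝ) ≤ (k : ℝ) ^ (2 * m) := one_le_pow₀ hkR
              exact one_le_mul_of_one_le_of_one_le hkR h3
            have h2 : 0 < C * (1200 * (b : ℝ) ^ 2) ^ m * ((b : ℝ) + 1) := by positivity
            calc 1 + (C * (1200 * (b : ℝ) ^ 2) ^ m * ((b : ℝ) + 1)) * (k * (k : ℝ) ^ (2 * m)) ≤
                  (1 + C * (1200 * (b : ℝ) ^ 2) ^ m * ((b : ℝ) + 1)) * (k * (k : ℝ) ^ (2 * m)) := by nlinarith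
              _ ≤ k * (k * (k : ℝ) ^ (2 * m)) := mul_le_mul_of_nonneg_right hk2' (by positivity)
        _ = Z * (k : ℝ) ^ (2 + 2 * m) := by ring
        _ ≤ Z * ((k : ℝ) ^ (2 + 2 * m)) ^ m := by
            apply mul_le_mul_of_nonneg_left _ hZ0
            exact le_self_pow₀ (one_le_pow₀ hkR) (by omega)
    have e5 : ∑ r ∈ R, G r * (Λ * τ r) = Λ * ∑ r ∈ R, G r * τ r := by
      rw [mul_sum]
      exact sum_congr rfl fun r _ => by ring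
    rw [e5]
    calc Z + Λ * ∑ r ∈ R, G r * τ r ≤ Λ * Z + Λ * ∑ r ∈ R, G r * τ r := by nlinarith
      _ = Λ * (Z + ∑ r ∈ R, G r * τ r) := by ring
      _ ≤ _ := mul_le_mul_of_nonneg_left hfin (by linarith)
  · intro v hv K _ _ α hfin hα hFα ℓ hℓ hℓT
    obtain ⟨m₀, hM⟩ : ∃ m₀ : ℕ, m₀ = n * (n - 1) * ℓ := ⟨_, rfl⟩
    obtain ⟨htriv, hgood⟩ := hcl k (by omega) v hv F hF j hj0 hj ℓ hℓ hℓT K α hfin hα hFα
    rw [← hM, ← hβ, hβinv] at hgood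
    rw [← hM, hβinv]
    obtain ⟨D, hD⟩ : ∃ D : ℝ, D = |(discr K : ℝ)| := ⟨_, rfl⟩
    rw [← hD] at htriv hgood ⊢
    have hD1 : 1 ≤ D := by
      rw [hD]
      have h1 : discr K ≠ 0 := discr_ne_zero K
      have h2 : 1 ≤ |discr K| := Int.one_le_abs h1
      exact_mod_cast h2
    have hD0 : 0 < D := by linarith
    have hsD : 0 < √D := Real.sqrt_pos.2 hD0
    have hinv : D ^ (-(1 / (m₀ : ℝ))) = 1 / D ^ (1 / (m₀ : ℝ)) := by
      rw [Real.rpow_neg hD0.le]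
      exact (one_div _).symm
    obtain ⟨y, hy⟩ : ∃ y : ℝ, y = D ^ (1 / (m₀ : ℝ)) := ⟨_, rfl⟩
    have hy0 : 0 < y := by rw [hy]; positivity
    rw [← hy] at hinv hgood
    rw [hinv] at hgood ⊢
    obtain ⟨μ, hμ⟩ : ∃ μ : ℝ, μ = max (1 / y) (1 / β) := ⟨_, rfl⟩
    have hμ0 : 0 < μ := by rw [hμ]; exact lt_max_of_lt_right (by positivity)
    rw [← hμ] at hgood ⊢
    have hT0 : (0 : ℝ) ≤ (Nat.card {x : ClassGroup (𝓞 K) // x ^ ℓ = 1} : ℝ) := Nat.cast_nonneg _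
    have hq : 0 ≤ (√D * μ) ^ m := by positivity
    by_cases hall : ∀ r : ℕ, k ^ A ≤ 2 ^ r → (2 ^ r) ^ W ≤ b ^ k → 600 * (2 : ℝ) ^ r ≤ y → min (y / 600) β < 2 * (2 : ℝ) ^ r →
        (Nat.primeCounting (2 ^ r) : ℝ) / (8 * n) ≤ (cntH F j (2 ^ r) v : ℝ)
    · have h1 := hgood hall
      have h0 : (Nat.card {x : ClassGroup (𝓞 K) // x ^ ℓ = 1} : ℝ) ≤ (k : ℝ) ^ B₁ * (√D * μ) := by
        refine h1.trans (le_of_eq ?_)
        ring
      calc (Nat.card {x : ClassGroup (𝓞 K) // x ^ ℓ = 1} : ℝ) ^ m ≤ ((k : ℝ) ^ B₁ * (√D * μ)) ^ m :=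
            pow_le_pow_left₀ hT0 h0 m
        _ = Z * (√D * μ) ^ m := by rw [mul_pow, hZ]
        _ ≤ Maj v * (√D * μ) ^ m := by
            apply mul_le_mul_of_nonneg_right _ hq
            rw [hMaj]
            exact le_add_of_nonneg_right (hnn v)
    · push Not at hall
      obtain ⟨r, hr1, hr2, hr3, hr4, hr5⟩ := hall
      have hrR : r ∈ R := by
        rw [hR, mem_filter, mem_range]
        refine ⟨?_, hr1, hr2⟩
        have h1 : 2 ^ r ≤ 2 ^ (b * k) := by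
          calc 2 ^ r ≤ (2 ^ r) ^ W := Nat.le_self_pow (by omega) _
            _ ≤ b ^ k := hr2
            _ ≤ (2 ^ b) ^ k := Nat.pow_le_pow_left (Nat.lt_two_pow_self).le _
            _ = 2 ^ (b * k) := by rw [← pow_mul]
        have := (Nat.pow_le_pow_iff_right (by norm_num : 1 < 2)).1 h1
        omega
      have h2r : (0 : ℝ) < 2 ^ r := by positivity
      have h4 : 1 ≤ 1200 * (2 : ℝ) ^ r * μ := by
        rcases min_lt_iff.1 hr4 with h3 | h3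
        · have h5 : 1 ≤ 1200 * (2 : ℝ) ^ r * (1 / y) := by
            rw [mul_one_div, le_div_iff₀ hy0]
            linarith
          refine h5.trans (mul_le_mul_of_nonneg_left ?_ (by positivity))
          rw [hμ]
          exact le_max_left _ _
        · have h5 : 1 ≤ 1200 * (2 : ℝ) ^ r * (1 / β) := by
            rw [mul_one_div, le_div_iff₀ hβ0]
            linarith
          refine h5.trans (mul_le_mul_of_nonneg_left ?_ (by positivity))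
          rw [hμ]
          exact le_max_right _ _
      have h1 : √D ≤ 1200 * (2 : ℝ) ^ r * (√D * μ) := by
        calc √D = √D * 1 := (mul_one _).symm
          _ ≤ √D * (1200 * (2 : ℝ) ^ r * μ) := mul_le_mul_of_nonneg_left h4 hsD.le
          _ = _ := by ring
      have h2 : (Nat.card {x : ClassGroup (𝓞 K) // x ^ ℓ = 1} : ℝ) ^ m ≤ G r * (√D * μ) ^ m := by
        calc (Nat.card {x : ClassGroup (𝓞 K) // x ^ ℓ = 1} : ℝ) ^ m ≤
            ((k : ℝ) ^ B₁ * (1200 * (2 : ℝ) ^ r * (√D * μ))) ^ m :=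
              pow_le_pow_left₀ hT0 (htriv.trans (mul_le_mul_of_nonneg_left h1 (by positivity))) m
          _ = G r * (√D * μ) ^ m := by
              rw [hG, hZ]
              simp only
              rw [mul_pow, mul_pow (1200 * (2 : ℝ) ^ r)]
              ring
      have h3 : G r ≤ ∑ r ∈ R, G r * (if P r v then 0 else 1) := by
        have h4 := single_le_sum (f := fun r => G r * (if P r v then (0 : ℝ) else 1))
          (s := R) (fun r _ => by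
            have := hG0 r
            split_ifs <;> simp [this]) hrR
        have h5 : ¬ P r v := by rw [hP]; exact not_le.2 hr5
        rw [if_neg h5, mul_one] at h4
        exact h4
      refine h2.trans (mul_le_mul_of_nonneg_right ?_ hq)
      rw [hMaj]
      dsimp only
      linarith

/-- `#Sur(Cl(K)[p^∞], H)` for the group `H`, the product of the cyclic groups of orders `p ^ e i`. -/
noncomputable def numSur (K : Type) [Field K] [NumberField K] (p : ℕ) {r : ℕ} (e : Fin r → ℕ) : ℕ :=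
  Nat.card {φ : CommGroup.primaryComponent (ClassGroup (𝓞 K)) p →* (∀ i : Fin r, Multiplicative (ZMod (p ^ e i))) //
    Function.Surjective φ}

lemma numSur_le (K : Type) [Field K] [NumberField K] (p : ℕ) (hp : p.Prime) {r : ℕ} (e : Fin r → ℕ) (m : ℕ)
    (he : ∀ i, e i ≤ m) : (numSur K p e : ℝ) ≤ (Nat.card {x : ClassGroup (𝓞 K) // x ^ (p ^ m) = 1} : ℝ) ^ r := by
  have := Pool.Agent.R345.HM.card_sur_le (ClassGroup (𝓞 K)) p hp m r e he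
  exact_mod_cast this

open Classical in
/-- **the `H`-moments of the class groups of quadratic fields: a majorant with small mean value** -/
theorem sur_max (b : ℕ) (hb : 2 ≤ b) (A₀ : ℕ) (γ : ℝ) (hγ0 : 0 < γ) (hγ1 : γ < 1) (r : ℕ) (hr : 1 ≤ r) : ∃ W : ℕ, 1 ≤ W ∧
    ∀ (F₀ : ℕ) (κ : ℤ), 1 ≤ F₀ → κ ≠ 0 → ∀ T V : ℕ, ∃ B k₀ : ℕ, ∀ k : ℕ, k₀ ≤ k →
    ∀ j : ℤ, j ≠ 0 → |j| ≤ (k : ℤ) ^ T → ∃ Maj : ℤ → ℝ, (∀ v, 0 ≤ Maj v) ∧
    (∀ (Λ : ℝ) (ι : Type) (Ω : Finset ι) (w : ι → ℝ) (v : ι → ℤ), 1 ≤ Λ → (∀ i ∈ Ω, 0 ≤ w i) → ∑ i ∈ Ω, w i ≤ 1 →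
      Dom b F₀ A₀ k γ κ Λ Ω w v → ∑ i ∈ Ω, w i * Maj (v i) ≤ Λ * ((k : ℝ) ^ B) ^ r) ∧
    ∀ v : ℤ, |v| ≤ (b : ℤ) ^ (V * k) → ∀ (K : Type) [Field K] [NumberField K] (α : K), Module.finrank ℚ K = 2 →
      IntermediateField.adjoin ℚ {α} = ⊤ → α ^ 2 = ((j * v : ℤ) : K) →
      ∀ (p m : ℕ) (e : Fin r → ℕ), p.Prime → p ^ m ≤ k ^ T → (∀ i, e i ≤ m) →
      (numSur K p e : ℝ) ≤ Maj v * (√|(discr K : ℝ)| *
        max (|(discr K : ℝ)| ^ (-(1 / (2 * (p : ℝ) ^ m)))) ((b : ℝ) ^ (-((k : ℝ) / W)))) ^ r := by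
  obtain ⟨W, hW, H⟩ := torsion_max b hb A₀ γ hγ0 hγ1 r hr
  refine ⟨W, hW, fun F₀ κ hF₀ hκ T V => ?_⟩
  obtain ⟨B, k₀, J⟩ := H F₀ κ hF₀ hκ 2 le_rfl T V
  refine ⟨B, k₀ + 1, fun k hk j hj0 hj => ?_⟩
  obtain ⟨Maj, h1, h2, h3⟩ := J k (by omega) (X ^ 2) ⟨monic_X_pow 2, natDegree_X_pow 2, fun i => by
    have hk1 : (1 : ℤ) ≤ (k : ℤ) ^ T := one_le_pow₀ (by exact_mod_cast (by omega : 1 ≤ k))
    rw [coeff_X_pow]
    split_ifs
    · simp [hk1]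
    · simp⟩ j hj0 hj
  refine ⟨Maj, h1, fun Λ ι Ω w v hΛ hw hw1 hdom => ?_, ?_⟩
  · exact h2 Λ ι Ω w v hΛ hw hw1 (fun P τ hτ hP => hdom P τ hτ hP _ (filter_subset _ _) fun i hi => (mem_filter.1 hi).2)
  · intro v hv K _ _ α hfin hα hsq p m e hp hℓT he
    refine (numSur_le K p hp e m he).trans ?_
    have h4 := h3 v hv K α hfin hα (by rw [map_pow, aeval_X]; exact hsq) (p ^ m) (Nat.one_le_pow _ _ hp.pos) hℓT
    have e1 : ((2 * (2 - 1) * (p ^ m) : ℕ) : ℝ) = 2 * (p : ℝ) ^ m := by push_cast; ring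
    rw [e1] at h4
    exact h4

end Pool.Agent.Helper92.HM
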